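import Mathlib

set_option autoImplicit false

open MeasureTheory Set Filter Topology
open scoped ContDiff Real

namespace Pool.Agent.H456R3

/-- the nonlinearity: `e^u` below `-3π/4`, a sine arc above -/
noncomputable def gg (u : ℝ) : ℝ :=
  if u ≤ -(3 * π / 4) then Real.exp u else -(√2 * Real.exp (-(3 * π / 4))) * Real.sin u

noncomputable def gg' (u : ℝ) : ℝ :=
  if u ≤ -(3 * π / 4) then Real.exp u else -(√2 * Real.exp (-(3 * π / 4))) * Real.cos u

theorem sqrt2_mul : √2 * (√2 / 2) = 1 := by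
  have : √2 * √2 = 2 := Real.mul_self_sqrt (by norm_num)
  linarith

theorem sin_node : Real.sin (-(3 * π / 4)) = -(√2 / 2) := by
  have : -(3 * π / 4) = π / 4 - π := by ring
  rw [this, Real.sin_sub_pi, Real.sin_pi_div_four]

theorem cos_node : Real.cos (-(3 * π / 4)) = -(√2 / 2) := by
  have : -(3 * π / 4) = π / 4 - π := by ring
  rw [this, Real.cos_sub_pi, Real.cos_pi_div_four]

theorem gg_of_ge {u : ℝ} (hu : -(3 * π / 4) ≤ u) :
    gg u = -(√2 * Real.exp (-(3 * π / 4))) * Real.sin u := by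
  unfold gg
  split_ifs with h
  · have : u = -(3 * π / 4) := le_antisymm h hu
    rw [this, sin_node]
    have := sqrt2_mul
    linear_combination (-Real.exp (-(3 * π / 4))) * this
  · rfl

theorem gg'_of_ge {u : ℝ} (hu : -(3 * π / 4) ≤ u) :
    gg' u = -(√2 * Real.exp (-(3 * π / 4))) * Real.cos u := by
  unfold gg'
  split_ifs with h
  · have : u = -(3 * π / 4) := le_antisymm h hu
    rw [this, cos_node]
    have := sqrt2_mul
    linear_combination (-Real.exp (-(3 * π / 4))) * this
  · rfl

theorem gg_of_le {u : ℝ} (hu : u ≤ -(3 * π / 4)) : gg u = Real.exp u := by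
  unfold gg; rw [if_pos hu]

theorem gg'_of_le {u : ℝ} (hu : u ≤ -(3 * π / 4)) : gg' u = Real.exp u := by
  unfold gg'; rw [if_pos hu]

theorem hasDerivAt_gg (u : ℝ) : HasDerivAt gg (gg' u) u := by
  rcases lt_trichotomy u (-(3 * π / 4)) with h | h | h
  · have h1 : gg =ᶠ[𝓝 u] Real.exp := by
      filter_upwards [Iio_mem_nhds h] with v hv
      exact gg_of_le (le_of_lt hv)
    rw [gg'_of_le h.le]
    exact (Real.hasDerivAt_exp u).congr_of_eventuallyEq h1
  · have hl : HasDerivWithinAt gg (gg' u) (Iic u) u := by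
      rw [gg'_of_le h.le]
      apply (Real.hasDerivAt_exp u).hasDerivWithinAt.congr
      · intro v hv
        have hv' : v ≤ u := hv
        exact gg_of_le (by linarith)
      · exact gg_of_le h.le
    have hr : HasDerivWithinAt gg (gg' u) (Ici u) u := by
      rw [gg'_of_ge h.ge]
      apply ((Real.hasDerivAt_sin u).const_mul _).hasDerivWithinAt.congr
      · intro v hv
        have hv' : u ≤ v := hv
        exact gg_of_ge (by linarith)
      · exact gg_of_ge h.ge
    have := hl.union hr
    rw [Iic_union_Ici] at this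
    exact this.hasDerivAt univ_mem
  · have h1 : gg =ᶠ[𝓝 u] fun u => -(√2 * Real.exp (-(3 * π / 4))) * Real.sin u := by
      filter_upwards [Ioi_mem_nhds h] with v hv
      exact gg_of_ge (le_of_lt hv)
    rw [gg'_of_ge h.le]
    exact ((Real.hasDerivAt_sin u).const_mul _).congr_of_eventuallyEq h1

theorem deriv_gg : deriv gg = gg' := funext fun u => (hasDerivAt_gg u).deriv

theorem continuous_gg' : Continuous gg' := by
  unfold gg'
  apply Continuous.if_le (by fun_prop) (by fun_prop) continuous_id continuous_const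
  intro u hu
  simp only [id] at hu
  rw [hu, cos_node]
  have := sqrt2_mul
  linear_combination (-Real.exp (-(3 * π / 4))) * this

theorem contDiff_gg : ContDiff ℝ 1 gg := by
  rw [contDiff_one_iff_deriv]
  refine ⟨fun u => (hasDerivAt_gg u).differentiableAt, ?_⟩
  rw [deriv_gg]
  exact continuous_gg'

theorem coef_pos : 0 < √2 * Real.exp (-(3 * π / 4)) := by positivity

theorem gg_abs_le (u : ℝ) : |gg u| ≤ 2 := by
  rcases le_total u (-(3 * π / 4)) with h | h
  · rw [gg_of_le h, abs_of_pos (Real.exp_pos u)]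
    have : u ≤ 0 := by linarith [Real.pi_pos]
    linarith [Real.exp_le_one_iff.mpr this]
  · rw [gg_of_ge h, abs_mul, abs_neg, abs_of_pos coef_pos]
    have h1 := Real.abs_sin_le_one u
    have h2 : Real.exp (-(3 * π / 4)) ≤ 1 := Real.exp_le_one_iff.mpr (by linarith [Real.pi_pos])
    have h3 : √2 ≤ 2 := by
      rw [Real.sqrt_le_left (by norm_num)]; norm_num
    have h4 : 0 ≤ √2 := Real.sqrt_nonneg 2
    have h5 := Real.exp_pos (-(3 * π / 4))
    calc √2 * Real.exp (-(3 * π / 4)) * |Real.sin u| ≤ 2 * 1 * 1 := by gcongr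
      _ = 2 := by norm_num

theorem gg'_abs_le (u : ℝ) : |gg' u| ≤ 2 := by
  rcases le_total u (-(3 * π / 4)) with h | h
  · rw [gg'_of_le h, abs_of_pos (Real.exp_pos u)]
    have : u ≤ 0 := by linarith [Real.pi_pos]
    linarith [Real.exp_le_one_iff.mpr this]
  · rw [gg'_of_ge h, abs_mul, abs_neg, abs_of_pos coef_pos]
    have h1 := Real.abs_cos_le_one u
    have h2 : Real.exp (-(3 * π / 4)) ≤ 1 := Real.exp_le_one_iff.mpr (by linarith [Real.pi_pos])
    have h3 : √2 ≤ 2 := by
      rw [Real.sqrt_le_left (by norm_num)]; norm_num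
    have h4 : 0 ≤ √2 := Real.sqrt_nonneg 2
    have h5 := Real.exp_pos (-(3 * π / 4))
    calc √2 * Real.exp (-(3 * π / 4)) * |Real.cos u| ≤ 2 * 1 * 1 := by gcongr
      _ = 2 := by norm_num

theorem gg_pos {u : ℝ} (hu : u < 0) : 0 < gg u := by
  rcases le_total u (-(3 * π / 4)) with h | h
  · rw [gg_of_le h]; exact Real.exp_pos u
  · rw [gg_of_ge h]
    have h1 : Real.sin u < 0 := Real.sin_neg_of_neg_of_neg_pi_lt hu (by linarith [Real.pi_pos])
    have := coef_pos
    nlinarith

theorem gg_zero : gg 0 = 0 := by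
  rw [gg_of_ge (by linarith [Real.pi_pos]), Real.sin_zero, mul_zero]

theorem gg'_nonpos {u : ℝ} (h1 : -(π / 2) ≤ u) (h2 : u ≤ 0) : gg' u ≤ 0 := by
  rw [gg'_of_ge (by linarith [Real.pi_pos])]
  have h3 : 0 ≤ Real.cos u := Real.cos_nonneg_of_mem_Icc ⟨h1, by linarith [Real.pi_pos]⟩
  have := coef_pos
  nlinarith

theorem integrableOn_gg (u : ℝ) : IntegrableOn gg (Iic u) := by
  have h1 : IntegrableOn gg (Iic (-(3 * π / 4))) := by
    apply (integrableOn_exp_Iic (-(3 * π / 4))).congr_fun _ measurableSet_Iic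
    intro v hv
    exact (gg_of_le hv).symm
  rcases le_total u (-(3 * π / 4)) with h | h
  · exact h1.mono_set (Iic_subset_Iic.mpr h)
  · rw [← Iic_union_Icc_eq_Iic h]
    exact h1.union (contDiff_gg.continuous.integrableOn_Icc)

theorem G0_of_le {u : ℝ} (h : u ≤ -(3 * π / 4)) : ∫ v in Iic u, gg v = Real.exp u := by
  rw [setIntegral_congr_fun measurableSet_Iic (g := Real.exp)]
  · exact integral_exp_Iic u
  · intro v hv
    have hv' : v ≤ u := hv
    exact gg_of_le (by linarith)

theorem G0_of_ge {u : ℝ} (h : -(3 * π / 4) ≤ u) :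
    ∫ v in Iic u, gg v = Real.exp (-(3 * π / 4)) * (2 + √2 * Real.cos u) := by
  have h0 := intervalIntegral.integral_Iic_sub_Iic (integrableOn_gg (-(3 * π / 4))) (integrableOn_gg u)
  rw [G0_of_le le_rfl] at h0
  have h1 : ∫ v in (-(3 * π / 4))..u, gg v =
      √2 * Real.exp (-(3 * π / 4)) * Real.cos u - √2 * Real.exp (-(3 * π / 4)) * Real.cos (-(3 * π / 4)) := by
    apply intervalIntegral.integral_eq_sub_of_hasDerivAt
    · intro v hv
      rw [uIcc_of_le h] at hv
      rw [gg_of_ge hv.1]
      have := (Real.hasDerivAt_cos v).const_mul (√2 * Real.exp (-(3 * π / 4)))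
      refine this.congr_deriv (by ring)
    · exact contDiff_gg.continuous.intervalIntegrable _ _
  rw [h1, cos_node] at h0
  have := sqrt2_mul
  linear_combination h0 + Real.exp (-(3 * π / 4)) * this

theorem G0_ge {u : ℝ} (hu : u < 0) : gg u ≤ ∫ v in Iic u, gg v := by
  rcases le_total u (-(3 * π / 4)) with h | h
  · rw [G0_of_le h, gg_of_le h]
  · rw [G0_of_ge h, gg_of_ge h]
    have h1 : -2 ≤ √2 * (Real.cos u + Real.sin u) := by
      have h2 : (√2 * (Real.cos u + Real.sin u)) ^ 2 ≤ 4 := by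
        rw [mul_pow, Real.sq_sqrt (by norm_num)]
        nlinarith [sq_nonneg (Real.cos u - Real.sin u), Real.sin_sq_add_cos_sq u]
      nlinarith
    have h5 := Real.exp_pos (-(3 * π / 4))
    nlinarith

end Pool.Agent.H456R3
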