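import Pool.Agent.H456R3.Lap

set_option autoImplicit false

open MeasureTheory Set Filter Topology
open scoped ContDiff Real

namespace Pool.Agent.H456R3

/-- directional derivative -/
noncomputable def D (i : Fin 2) (F : Plane → ℝ) (y : Plane) : ℝ := fderiv ℝ F y (ev i)

theorem contDiff_D {F : Plane → ℝ} (hF : ContDiff ℝ ∞ F) (i : Fin 2) : ContDiff ℝ ∞ (D i F) := by
  have h1 : ContDiff ℝ ∞ (fderiv ℝ F) := hF.fderiv_right (by simp)
  exact h1.clm_apply contDiff_const

theorem compact_D {F : Plane → ℝ} (hF : HasCompactSupport F) (i : Fin 2) :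
    HasCompactSupport (D i F) := hF.fderiv_apply ℝ (ev i)

theorem integrable_mul_left {F φ : Plane → ℝ} (hF : Continuous F) (hφ : Continuous φ)
    (hc : HasCompactSupport φ) : Integrable (fun x => F x * φ x) volume :=
  (hF.mul hφ).integrable_of_hasCompactSupport hc.mul_left

theorem parts {F φ : Plane → ℝ} (hF : ContDiff ℝ ∞ F) (hφ : ContDiff ℝ ∞ φ)
    (hc : HasCompactSupport φ) (i : Fin 2) :
    ∫ x, F x * D i φ x = - ∫ x, D i F x * φ x := by
  apply integral_mul_fderiv_eq_neg_fderiv_mul_of_integrable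
  · exact integrable_mul_left (contDiff_D hF i).continuous hφ.continuous hc
  · exact integrable_mul_left hF.continuous (contDiff_D hφ i).continuous (compact_D hc i)
  · exact integrable_mul_left hF.continuous hφ.continuous hc
  · exact fun x _ => (hF.differentiable (by simp)) x
  · exact fun x _ => (hφ.differentiable (by simp)) x

theorem parts2 {F φ : Plane → ℝ} (hF : ContDiff ℝ ∞ F) (hφ : ContDiff ℝ ∞ φ)
    (hc : HasCompactSupport φ) (i : Fin 2) :
    ∫ x, F x * D i (D i φ) x = ∫ x, D i (D i F) x * φ x := by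
  rw [parts hF (contDiff_D hφ i) (compact_D hc i) i, parts (contDiff_D hF i) hφ hc i, neg_neg]

theorem lap_eq (F : Plane → ℝ) (x : Plane) : lap F x = ∑ i : Fin 2, D i (D i F) x := rfl

theorem contDiff_lap {F : Plane → ℝ} (hF : ContDiff ℝ ∞ F) : ContDiff ℝ ∞ (lap F) := by
  have : lap F = fun x => ∑ i : Fin 2, D i (D i F) x := rfl
  rw [this]
  exact ContDiff.sum fun i _ => contDiff_D (contDiff_D hF i) i

theorem compact_lap {F : Plane → ℝ} (hF : HasCompactSupport F) : HasCompactSupport (lap F) := by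
  have : lap F = (D 0 (D 0 F)) + (D 1 (D 1 F)) := by
    funext x
    rw [lap_eq, Fin.sum_univ_two]
    rfl
  rw [this]
  exact (compact_D (compact_D hF 0) 0).add (compact_D (compact_D hF 1) 1)

theorem green {F φ : Plane → ℝ} (hF : ContDiff ℝ ∞ F) (hφ : ContDiff ℝ ∞ φ)
    (hc : HasCompactSupport φ) :
    ∫ x, F x * lap φ x = ∫ x, lap F x * φ x := by
  simp only [lap_eq, Finset.mul_sum, Finset.sum_mul]
  rw [integral_finsetSum, integral_finsetSum]
  · exact Finset.sum_congr rfl fun i _ => parts2 hF hφ hc i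
  · exact fun i _ => integrable_mul_left (contDiff_D (contDiff_D hF i) i).continuous hφ.continuous hc
  · exact fun i _ => integrable_mul_left hF.continuous (contDiff_D (contDiff_D hφ i) i).continuous
      (compact_D (compact_D hc i) i)

theorem integral_lap {φ : Plane → ℝ} (hφ : ContDiff ℝ ∞ φ) (hc : HasCompactSupport φ) :
    ∫ x, lap φ x = 0 := by
  have h := green (F := fun _ => (1:ℝ)) contDiff_const hφ hc
  have e : ∀ x, lap (fun _ : Plane => (1:ℝ)) x = 0 := by
    intro x
    simp [lap]
  simpa [e] using h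

/-! ### the logarithm -/

theorem finrank_plane : Module.finrank ℝ Plane = 2 := by simp [Plane]

/-- local integrability of `log ‖x‖` times a compactly supported continuous function -/
theorem locallyIntegrable_log : LocallyIntegrable (fun x : Plane => Real.log ‖x‖) volume := by
  rw [locallyIntegrable_iff]
  intro K hK
  obtain ⟨r, hr⟩ := hK.isBounded.subset_ball (0 : Plane)
  apply IntegrableOn.mono_set _ hr
  rw [integrableOn_fun_norm_addHaar (μ := (volume : Measure Plane)) (f := Real.log), finrank_plane]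
  have hcont : Continuous fun y : ℝ => y ^ (2 - 1) • Real.log y := by
    have := Real.continuous_mul_log
    simpa using this
  exact (hcont.integrableOn_Icc (a := 0) (b := r)).mono_set Ioo_subset_Icc_self

theorem integral_bump : ∫ x : Plane, 1 / (π * (1 + ‖x‖ ^ 2) ^ 2) = 1 := by
  have h := integral_fun_norm_addHaar (volume : Measure Plane) (fun y : ℝ => 1 / (π * (1 + y ^ 2) ^ 2))
  rw [h, finrank_plane]
  have hv : (volume : Measure Plane).real (Metric.ball 0 1) = π := by
    rw [Measure.real, EuclideanSpace.volume_ball_fin_two]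
    simp [Real.pi_pos.le]
  rw [hv]
  have hI : ∫ y in Ioi (0:ℝ), y ^ (2 - 1) • (1 / (π * (1 + y ^ 2) ^ 2)) = 1 / (2 * π) := by
    have hder : ∀ y ∈ Ici (0:ℝ), HasDerivAt (fun y : ℝ => -(1 / (2 * π)) * (1 + y ^ 2)⁻¹)
        (y ^ (2 - 1) • (1 / (π * (1 + y ^ 2) ^ 2))) y := by
      intro y _
      have h1 : HasDerivAt (fun y : ℝ => 1 + y ^ 2) (2 * y) y := by
        simpa using ((hasDerivAt_pow 2 y).const_add 1)
      have h2 := (h1.inv (by positivity)).const_mul (-(1 / (2 * π)))
      refine h2.congr_deriv ?_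
      have := Real.pi_pos.ne'
      simp only [smul_eq_mul]
      field_simp
      norm_num
    have hlim : Tendsto (fun y : ℝ => -(1 / (2 * π)) * (1 + y ^ 2)⁻¹) atTop (𝓝 0) := by
      have h1 : Tendsto (fun y : ℝ => 1 + y ^ 2) atTop atTop :=
        tendsto_atTop_add_const_left _ _ (tendsto_pow_atTop (by norm_num))
      simpa using h1.inv_tendsto_atTop.const_mul (-(1 / (2 * π)))
    have := integral_Ioi_of_hasDerivAt_of_nonneg' hder (fun y hy => by
      have : (0:ℝ) < y := hy
      simp only [smul_eq_mul]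
      positivity) hlim
    rw [this]
    norm_num
  rw [hI]
  have := Real.pi_pos.ne'
  simp only [smul_eq_mul, nsmul_eq_mul]
  field_simp
  norm_num

/-- the smoothed logarithm -/
theorem lap_smooth_log (c : ℝ) (x : Plane) :
    lap (LF (fun z => (c:ℂ) * z)) x = 4 * c ^ 2 / (1 + c ^ 2 * ‖x‖ ^ 2) ^ 2 := by
  have h := lap_LF (h := fun z => (c:ℂ) * z) (h' := fun _ => (c:ℂ)) (h'' := fun _ => 0)
    (fun z => by simpa using (hasDerivAt_id z).const_mul (c:ℂ))
    ((contDiff_const.mul contDiff_id))
    (fun z => hasDerivAt_const z (c:ℂ)) x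
  rw [h]
  rw [Complex.normSq_mul, Complex.normSq_ofReal, Complex.normSq_eq_norm_sq (cz x), norm_cz]
  ring

theorem LF_eq (c : ℝ) (x : Plane) :
    LF (fun z => (c:ℂ) * z) x = Real.log (1 + c ^ 2 * ‖x‖ ^ 2) := by
  unfold LF
  rw [Complex.normSq_mul, Complex.normSq_ofReal, Complex.normSq_eq_norm_sq (cz x), norm_cz]
  congr 1
  ring

theorem contDiff_LFc (c : ℝ) : ContDiff ℝ ∞ (LF (fun z => (c:ℂ) * z)) :=
  contDiff_h (contDiff_const.mul contDiff_id)

/-- `∫ log ‖x‖ Δφ = 2 π φ(0)` -/
theorem log_fundamental {φ : Plane → ℝ} (hφ : ContDiff ℝ ∞ φ) (hc : HasCompactSupport φ) :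
    ∫ x, Real.log ‖x‖ * lap φ x = 2 * π * φ 0 := by
  have hlc := (contDiff_lap hφ).continuous
  have hls := compact_lap hc
  -- the approximate identity
  have h1 : Tendsto (fun c : ℝ => ∫ x : Plane,
      (c ^ (Module.finrank ℝ Plane) * (1 / (π * (1 + ‖c • x‖ ^ 2) ^ 2))) • φ x) atTop (𝓝 (φ 0)) := by
    apply tendsto_integral_comp_smul_smul_of_integrable
      (φ := fun x : Plane => 1 / (π * (1 + ‖x‖ ^ 2) ^ 2))
    · intro x; positivity
    · exact integral_bump
    · rw [finrank_plane]
      have h2 : Tendsto (fun r : ℝ => r ^ 2 * (1 / (π * (1 + r ^ 2) ^ 2))) atTop (𝓝 0) := by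
        have h3 : Tendsto (fun r : ℝ => (1 / π) * (1 + r ^ 2)⁻¹) atTop (𝓝 0) := by
          have h4 : Tendsto (fun y : ℝ => 1 + y ^ 2) atTop atTop :=
            tendsto_atTop_add_const_left _ _ (tendsto_pow_atTop (by norm_num))
          simpa using h4.inv_tendsto_atTop.const_mul (1 / π)
        apply squeeze_zero _ _ h3
        · intro r; positivity
        · intro r
          have hp := Real.pi_pos
          rw [mul_one_div, div_le_iff₀ (by positivity)]
          have : 1 / π * (1 + r ^ 2)⁻¹ * (π * (1 + r ^ 2) ^ 2) = 1 + r ^ 2 := by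
            field_simp
          rw [this]
          linarith
      exact h2.comp tendsto_norm_cobounded_atTop
    · exact hφ.continuous.integrable_of_hasCompactSupport hc
    · exact hφ.continuous.continuousAt
  -- identify
  have h2 : ∀ c : ℝ, 0 < c → ∫ x : Plane,
      (c ^ (Module.finrank ℝ Plane) * (1 / (π * (1 + ‖c • x‖ ^ 2) ^ 2))) • φ x =
      1 / (2 * π) * ∫ x, (1 / 2 * Real.log ((c ^ 2)⁻¹ + ‖x‖ ^ 2)) * lap φ x := by
    intro c hc0
    have e1 : ∀ x : Plane, (c ^ (Module.finrank ℝ Plane) * (1 / (π * (1 + ‖c • x‖ ^ 2) ^ 2))) • φ x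
        = 1 / (4 * π) * (lap (LF (fun z => (c:ℂ) * z)) x * φ x) := by
      intro x
      rw [lap_smooth_log, finrank_plane, norm_smul, Real.norm_eq_abs, mul_pow, sq_abs, smul_eq_mul]
      have := Real.pi_pos.ne'
      field_simp
    simp only [e1]
    rw [integral_const_mul, ← green (contDiff_LFc c) hφ hc]
    have e2 : ∀ x : Plane, LF (fun z => (c:ℂ) * z) x * lap φ x =
        2 * ((1 / 2 * Real.log ((c ^ 2)⁻¹ + ‖x‖ ^ 2)) * lap φ x) + Real.log (c ^ 2) * lap φ x := by
      intro x
      rw [LF_eq]
      have e3 : 1 + c ^ 2 * ‖x‖ ^ 2 = c ^ 2 * ((c ^ 2)⁻¹ + ‖x‖ ^ 2) := by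
        field_simp
      rw [e3, Real.log_mul (by positivity) (by positivity)]
      ring
    simp only [e2]
    have hcont : Continuous fun x : Plane => 1 / 2 * Real.log ((c ^ 2)⁻¹ + ‖x‖ ^ 2) := by
      apply Continuous.mul continuous_const
      apply Continuous.log (by fun_prop)
      intro x
      positivity
    rw [integral_add, integral_const_mul, integral_const_mul, integral_lap hφ hc]
    · ring
    · exact (integrable_mul_left hcont hlc hls).const_mul 2
    · exact integrable_mul_left continuous_const hlc hls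
  have h3 : Tendsto (fun c : ℝ => ∫ x : Plane, (1 / 2 * Real.log ((c ^ 2)⁻¹ + ‖x‖ ^ 2)) * lap φ x)
      atTop (𝓝 (∫ x, Real.log ‖x‖ * lap φ x)) := by
    apply tendsto_integral_filter_of_dominated_convergence
      (bound := fun x => (|Real.log ‖x‖| + Real.log (1 + ‖x‖ ^ 2)) * |lap φ x|)
    · filter_upwards [eventually_gt_atTop 0] with c hc0
      have hcont : Continuous fun x : Plane => 1 / 2 * Real.log ((c ^ 2)⁻¹ + ‖x‖ ^ 2) := by
        apply Continuous.mul continuous_const
        apply Continuous.log (by fun_prop)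
        intro x
        positivity
      exact (hcont.mul hlc).aestronglyMeasurable
    · filter_upwards [eventually_ge_atTop 1] with c hc1
      have hnull : ∀ᵐ x : Plane ∂volume, x ≠ 0 := by
        rw [ae_iff]; simp
      filter_upwards [hnull] with x hx
      rw [norm_mul, Real.norm_eq_abs, Real.norm_eq_abs]
      apply mul_le_mul_of_nonneg_right _ (abs_nonneg _)
      have hx0 : 0 < ‖x‖ := norm_pos_iff.mpr hx
      have hci : (c ^ 2)⁻¹ ≤ 1 := by
        apply inv_le_one_of_one_le₀
        nlinarith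
      have hci0 : 0 < (c ^ 2)⁻¹ := by positivity
      have l1 : Real.log ‖x‖ ≤ 1 / 2 * Real.log ((c ^ 2)⁻¹ + ‖x‖ ^ 2) := by
        have : Real.log (‖x‖ ^ 2) ≤ Real.log ((c ^ 2)⁻¹ + ‖x‖ ^ 2) :=
          Real.log_le_log (by positivity) (by linarith)
        rw [Real.log_pow] at this
        push_cast at this
        linarith
      have l2 : Real.log ((c ^ 2)⁻¹ + ‖x‖ ^ 2) ≤ Real.log (1 + ‖x‖ ^ 2) :=
        Real.log_le_log (by positivity) (by linarith)
      have l3 : 0 ≤ Real.log (1 + ‖x‖ ^ 2) := Real.log_nonneg (by nlinarith [sq_nonneg ‖x‖])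
      rw [abs_le]
      constructor
      · linarith [neg_abs_le (Real.log ‖x‖)]
      · linarith [abs_nonneg (Real.log ‖x‖)]
    · have i1 : Integrable (fun x : Plane => |Real.log ‖x‖| * |lap φ x|) volume := by
        have := locallyIntegrable_log.integrable_smul_right_of_hasCompactSupport hlc hls
        refine this.norm.congr ?_
        filter_upwards with x
        rw [norm_smul, Real.norm_eq_abs, Real.norm_eq_abs]
      have i2 : Integrable (fun x : Plane => Real.log (1 + ‖x‖ ^ 2) * |lap φ x|) volume := by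
        have hcont : Continuous fun x : Plane => Real.log (1 + ‖x‖ ^ 2) := by
          apply Continuous.log (by fun_prop)
          intro x
          positivity
        refine (integrable_mul_left hcont hlc hls).norm.congr ?_
        filter_upwards with x
        have : 0 ≤ Real.log (1 + ‖x‖ ^ 2) := Real.log_nonneg (by nlinarith [sq_nonneg ‖x‖])
        rw [norm_mul, Real.norm_eq_abs, Real.norm_eq_abs, abs_of_nonneg this]
      refine (i1.add i2).congr ?_
      filter_upwards with x
      simp only [Pi.add_apply]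
      ring
    · have hnull : ∀ᵐ x : Plane ∂volume, x ≠ 0 := by
        rw [ae_iff]; simp
      filter_upwards [hnull] with x hx
      apply Tendsto.mul_const
      have hx0 : 0 < ‖x‖ := norm_pos_iff.mpr hx
      have t1 : Tendsto (fun c : ℝ => (c ^ 2)⁻¹ + ‖x‖ ^ 2) atTop (𝓝 (0 + ‖x‖ ^ 2)) :=
        ((tendsto_pow_atTop (by norm_num)).inv_tendsto_atTop).add_const _
      rw [zero_add] at t1
      have t2 := ((Real.continuousAt_log (by positivity)).tendsto.comp t1).const_mul (1 / 2)
      have e : 1 / 2 * Real.log (‖x‖ ^ 2) = Real.log ‖x‖ := by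
        rw [Real.log_pow]; push_cast; ring
      rw [e] at t2
      exact t2
  have h4 : Tendsto (fun c : ℝ => ∫ x : Plane,
      (c ^ (Module.finrank ℝ Plane) * (1 / (π * (1 + ‖c • x‖ ^ 2) ^ 2))) • φ x) atTop
      (𝓝 (1 / (2 * π) * ∫ x, Real.log ‖x‖ * lap φ x)) := by
    refine (h3.const_mul (1 / (2 * π))).congr' ?_
    filter_upwards [eventually_gt_atTop 0] with c hc0
    exact (h2 c hc0).symm
  have h5 := tendsto_nhds_unique h1 h4
  rw [h5]
  have := Real.pi_pos.ne'
  field_simp

end Pool.Agent.H456R3
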