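import Mathlib

set_option autoImplicit false

open MeasureTheory Set Filter Topology
open scoped ContDiff Real

namespace Pool.Agent.H456R3

/-- the plane -/
abbrev Plane := EuclideanSpace ℝ (Fin 2)

/-- the coordinate vectors -/
noncomputable def ev (i : Fin 2) : Plane := EuclideanSpace.single i (1:ℝ)

/-- the complex coordinate -/
noncomputable def cz (x : Plane) : ℂ := ⟨x 0, x 1⟩

/-- the complex directions -/
noncomputable def cv (i : Fin 2) : ℂ := if i = 0 then 1 else Complex.I

theorem cz_add (x : Plane) (t : ℝ) (i : Fin 2) : cz (x + t • ev i) = cz x + t * cv i := by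
  unfold cz ev cv
  fin_cases i
  · apply Complex.ext <;> simp
  · apply Complex.ext <;> simp

theorem norm_cz (x : Plane) : ‖cz x‖ = ‖x‖ := by
  rw [EuclideanSpace.norm_eq, Fin.sum_univ_two]
  unfold cz
  rw [Complex.norm_eq_sqrt_sq_add_sq]
  simp

theorem contDiff_cz : ContDiff ℝ ∞ cz := by
  have h : cz = fun x : Plane => ((x 0 : ℝ) : ℂ) + ((x 1 : ℝ) : ℂ) * Complex.I := by
    funext x
    apply Complex.ext <;> simp [cz]
  rw [h]
  have h0 : ContDiff ℝ ∞ fun x : Plane => x 0 := by fun_prop
  have h1 : ContDiff ℝ ∞ fun x : Plane => x 1 := by fun_prop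
  exact (Complex.ofRealCLM.contDiff.comp h0).add ((Complex.ofRealCLM.contDiff.comp h1).mul contDiff_const)

/-- directional derivative from the derivative along a line -/
theorem fderiv_of_line {F : Plane → ℝ} (hF : Differentiable ℝ F) (x v : Plane) {d : ℝ}
    (h : HasDerivAt (fun t : ℝ => F (x + t • v)) d 0) : fderiv ℝ F x v = d := by
  have h1 := (hF x).hasFDerivAt.hasLineDerivAt v
  exact HasDerivAt.unique h1 h

/-- the sum of the second coordinate derivatives -/
noncomputable def lap (F : Plane → ℝ) (x : Plane) : ℝ :=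
  ∑ i : Fin 2, fderiv ℝ (fun y => fderiv ℝ F y (ev i)) x (ev i)

section logform

variable {h h' h'' : ℂ → ℂ} (hh : ∀ z, HasDerivAt h (h' z) z) (hh' : ∀ z, HasDerivAt h' (h'' z) z)
include hh

theorem line_h (x : Plane) (i : Fin 2) :
    HasDerivAt (fun t : ℝ => h (cz (x + t • ev i))) (h' (cz x) * cv i) 0 := by
  have e : (fun t : ℝ => h (cz (x + t • ev i))) = fun t : ℝ => h (cz x + (t:ℂ) * cv i) := by
    funext t; rw [cz_add]
  rw [e]
  have h1 : HasDerivAt (fun t : ℝ => cz x + (t:ℂ) * cv i) (cv i) 0 := by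
    have := ((Complex.ofRealCLM.hasDerivAt (x := (0:ℝ))).mul_const (cv i)).const_add (cz x)
    simpa using this
  have h2 : HasDerivAt h (h' (cz x)) (cz x + ((0:ℝ):ℂ) * cv i) := by
    simpa using hh (cz x)
  exact h2.comp_of_eq (x := (0:ℝ)) (h₂ := h) (h := fun t : ℝ => cz x + (t:ℂ) * cv i) h1 rfl

theorem line_normSq (x : Plane) (i : Fin 2) :
    HasDerivAt (fun t : ℝ => Complex.normSq (h (cz (x + t • ev i))))
      (2 * ((starRingEnd ℂ) (h (cz x)) * (h' (cz x) * cv i)).re) 0 := by
  have h1 := line_h hh x i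
  have hre : HasDerivAt (fun t : ℝ => (h (cz (x + t • ev i))).re) (h' (cz x) * cv i).re 0 := by
    have := Complex.reCLM.hasFDerivAt.comp_hasDerivAt (0:ℝ) h1
    exact this
  have him : HasDerivAt (fun t : ℝ => (h (cz (x + t • ev i))).im) (h' (cz x) * cv i).im 0 := by
    have := Complex.imCLM.hasFDerivAt.comp_hasDerivAt (0:ℝ) h1
    exact this
  have h2 := (hre.mul hre).add (him.mul him)
  have e : (fun t : ℝ => Complex.normSq (h (cz (x + t • ev i)))) = fun t : ℝ =>
      (h (cz (x + t • ev i))).re * (h (cz (x + t • ev i))).re +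
      (h (cz (x + t • ev i))).im * (h (cz (x + t • ev i))).im := by
    funext t; rw [Complex.normSq_apply]
  rw [e]
  refine h2.congr_deriv ?_
  simp only [zero_smul, add_zero, Complex.mul_re, Complex.mul_im, Complex.conj_re, Complex.conj_im]
  ring

/-- `log (1 + |h|^2)` -/
noncomputable def LF (h : ℂ → ℂ) (x : Plane) : ℝ := Real.log (1 + Complex.normSq (h (cz x)))

omit hh in
theorem one_add_pos (w : ℂ) : 0 < 1 + Complex.normSq w := by
  have := Complex.normSq_nonneg w
  linarith

omit hh in
theorem contDiff_h (hs : ContDiff ℝ ∞ h) : ContDiff ℝ ∞ (LF h) := by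
  unfold LF
  have h1 : ContDiff ℝ ∞ fun x : Plane => h (cz x) := hs.comp contDiff_cz
  have hre : ContDiff ℝ ∞ fun x : Plane => (h (cz x)).re := Complex.reCLM.contDiff.comp h1
  have him : ContDiff ℝ ∞ fun x : Plane => (h (cz x)).im := Complex.imCLM.contDiff.comp h1
  have h2 : ContDiff ℝ ∞ fun x : Plane => 1 + Complex.normSq (h (cz x)) := by
    have e : (fun x : Plane => 1 + Complex.normSq (h (cz x))) =
        fun x : Plane => 1 + ((h (cz x)).re * (h (cz x)).re + (h (cz x)).im * (h (cz x)).im) := by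
      funext x; rw [Complex.normSq_apply]
    rw [e]
    exact contDiff_const.add ((hre.mul hre).add (him.mul him))
  exact h2.log fun x => (one_add_pos _).ne'

theorem fderiv_LF (hs : ContDiff ℝ ∞ h) (x : Plane) (i : Fin 2) :
    fderiv ℝ (LF h) x (ev i) =
      2 * ((starRingEnd ℂ) (h (cz x)) * (h' (cz x) * cv i)).re / (1 + Complex.normSq (h (cz x))) := by
  apply fderiv_of_line ((contDiff_h hs).differentiable (by simp))
  have h1 := (line_normSq hh x i).const_add 1
  have h2 := h1.log (by simpa using (one_add_pos _).ne')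
  simpa [LF] using h2

include hh' in
theorem fderiv2_LF (hs : ContDiff ℝ ∞ h) (x : Plane) (i : Fin 2) :
    fderiv ℝ (fun y => fderiv ℝ (LF h) y (ev i)) x (ev i) =
      ((2 * ((starRingEnd ℂ) (h' (cz x) * cv i) * (h' (cz x) * cv i) +
        (starRingEnd ℂ) (h (cz x)) * (h'' (cz x) * cv i * cv i)).re) * (1 + Complex.normSq (h (cz x))) -
        (2 * ((starRingEnd ℂ) (h (cz x)) * (h' (cz x) * cv i)).re) *
          (2 * ((starRingEnd ℂ) (h (cz x)) * (h' (cz x) * cv i)).re)) /
        (1 + Complex.normSq (h (cz x))) ^ 2 := by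
  have hd : Differentiable ℝ fun y => fderiv ℝ (LF h) y (ev i) := by
    have h1 : ContDiff ℝ ∞ (fderiv ℝ (LF h)) := (contDiff_h hs).fderiv_right (by simp)
    exact (h1.clm_apply contDiff_const).differentiable (by simp)
  apply fderiv_of_line hd
  have e : (fun t : ℝ => fderiv ℝ (LF h) (x + t • ev i) (ev i)) = fun t : ℝ =>
      2 * ((starRingEnd ℂ) (h (cz (x + t • ev i))) * (h' (cz (x + t • ev i)) * cv i)).re /
        (1 + Complex.normSq (h (cz (x + t • ev i)))) := by
    funext t; rw [fderiv_LF hh hs]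
  rw [e]
  have a1 := line_h hh x i
  have a2 := (line_h hh' x i).mul_const (cv i)
  have a1' : HasDerivAt (fun t : ℝ => (starRingEnd ℂ) (h (cz (x + t • ev i))))
      ((starRingEnd ℂ) (h' (cz x) * cv i)) 0 := by
    have := Complex.conjCLE.toContinuousLinearMap.hasFDerivAt.comp_hasDerivAt (0:ℝ) a1
    exact this
  have a3 := a1'.mul a2
  have a4 : HasDerivAt (fun t : ℝ => ((starRingEnd ℂ) (h (cz (x + t • ev i))) *
      (h' (cz (x + t • ev i)) * cv i)).re)
      ((starRingEnd ℂ) (h' (cz x) * cv i) * (h' (cz x) * cv i) +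
        (starRingEnd ℂ) (h (cz x)) * (h'' (cz x) * cv i * cv i)).re 0 := by
    have := Complex.reCLM.hasFDerivAt.comp_hasDerivAt (0:ℝ) a3
    refine this.congr_deriv ?_
    simp only [zero_smul, add_zero, Complex.reCLM_apply]
  have a5 := (line_normSq hh x i).const_add 1
  have a6 := (a4.const_mul 2).div a5 (by simpa using (one_add_pos _).ne')
  refine a6.congr_deriv ?_
  simp only [zero_smul, add_zero]

/-- Liouville's identity -/
theorem lap_LF (hs : ContDiff ℝ ∞ h) (hh' : ∀ z, HasDerivAt h' (h'' z) z) (x : Plane) :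
    lap (LF h) x = 4 * Complex.normSq (h' (cz x)) / (1 + Complex.normSq (h (cz x))) ^ 2 := by
  unfold lap
  rw [Fin.sum_univ_two, fderiv2_LF hh hh' hs, fderiv2_LF hh hh' hs]
  have hp := (one_add_pos (h (cz x))).ne'
  rw [← add_div]
  congr 1
  simp only [cv, Fin.isValue, if_true, one_ne_zero, if_false]
  simp only [Complex.normSq_apply, Complex.mul_re, Complex.mul_im, Complex.add_re, Complex.conj_re,
    Complex.conj_im, Complex.one_re, Complex.one_im, Complex.I_re, Complex.I_im]
  ring

end logform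

end Pool.Agent.H456R3
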